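import Mathlib

namespace Pool.Agent.Results.MP_ace4dd_an.Counter
open Set Filter Topology Real

/-- unimodal self-map of the interval with turning point c. -/
def Unimodal (f : ℝ → ℝ) (c : ℝ) : Prop :=
  ContinuousOn f (Icc (-1) 1) ∧ MapsTo f (Icc (-1) 1) (Icc (-1) 1) ∧ f (-1) = -1 ∧ f 1 = -1 ∧
    c ∈ Ioo (-1 : ℝ) 1 ∧ StrictMonoOn f (Icc (-1) c) ∧ StrictAntiOn f (Icc c 1)

/-- kneading sequence: coefficientwise left limit at f c of the signs of the derivatives
of the iterates. -/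
noncomputable def knead (f : ℝ → ℝ) (c : ℝ) (i : ℕ) : ℤ :=
  limUnder (𝓝[<] (f c)) fun y => (SignType.sign (derivWithin f^[i + 1] (Icc (-1) 1) y) : ℤ)

/-- the quadratic family. -/
def F (x μ : ℝ) : ℝ := (μ - 1) - μ * x ^ 2

lemma uni (g g' : ℝ → ℝ) (hg : ∀ x, HasDerivAt g (g' x) x) (ha : StrictAnti g')
    (hc : Continuous g') (h1 : g (-1) = -1) (h2 : g 1 = -1) (h3 : ∀ x, g x ≤ 1)
    (h4 : 0 < g' (-1)) (h5 : g' 1 < 0) : ∃ c, g' c = 0 ∧ Unimodal g c := by
  obtain ⟨c, hc1, hc2⟩ := intermediate_value_Ioo' (show (-1 : ℝ) ≤ 1 by norm_num)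
    hc.continuousOn ⟨h5, h4⟩
  have cg : Continuous g := continuous_iff_continuousAt.2 fun x => (hg x).continuousAt
  have m1 : StrictMonoOn g (Icc (-1) c) :=
    strictMonoOn_of_deriv_pos (convex_Icc _ _) cg.continuousOn fun x hx => by
      rw [interior_Icc] at hx
      rw [(hg x).deriv, ← hc2]; exact ha hx.2
  have m2 : StrictAntiOn g (Icc c 1) :=
    strictAntiOn_of_deriv_neg (convex_Icc _ _) cg.continuousOn fun x hx => by
      rw [interior_Icc] at hx
      rw [(hg x).deriv, ← hc2]; exact ha hx.1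
  refine ⟨c, hc2, cg.continuousOn, fun x hx => ⟨?_, h3 x⟩, h1, h2, hc1, m1, m2⟩
  rcases le_total x c with h | h
  · exact h1.ge.trans (m1.monotoneOn ⟨le_rfl, hc1.1.le⟩ ⟨hx.1, h⟩ hx.1)
  · exact h2.ge.trans (m2.antitoneOn ⟨h, hx.2⟩ ⟨hc1.2.le, le_rfl⟩ hx.2)

lemma first (g g' : ℝ → ℝ) (hg : ∀ x, HasDerivAt g (g' x) x) (ha : StrictAnti g') (c : ℝ)
    (hc : g' c = 0) (hu : Unimodal g c) :
    (g c ≤ c → knead g c 0 = 1) ∧ (c < g c → knead g c 0 = -1) := by
  have h1 : -1 < g c := by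
    have := hu.2.2.2.2.2.1 ⟨le_rfl, hu.2.2.2.2.1.1.le⟩ ⟨hu.2.2.2.2.1.1.le, le_rfl⟩ hu.2.2.2.2.1.1
    rwa [hu.2.2.1] at this
  have h2 : g c ≤ 1 := (hu.2.1 (Ioo_subset_Icc_self hu.2.2.2.2.1)).2
  have h3 : ∀ y ∈ Ioo (-1) (g c), derivWithin g^[0 + 1] (Icc (-1) 1) y = g' y := fun y hy =>
    (hg y).hasDerivWithinAt.derivWithin (uniqueDiffOn_Icc (by norm_num) y ⟨hy.1.le, by
      linarith [hy.2]⟩)
  refine ⟨fun h => Tendsto.limUnder_eq (tendsto_const_nhds.congr' ?_),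
    fun h => Tendsto.limUnder_eq (tendsto_const_nhds.congr' ?_)⟩
  · filter_upwards [Ioo_mem_nhdsLT h1] with y hy
    rw [h3 y hy, sign_pos (hc ▸ ha (hy.2.trans_le h))]; rfl
  · filter_upwards [Ioo_mem_nhdsLT h1, Ioo_mem_nhdsLT h] with y hy hy'
    rw [h3 y hy, sign_neg (hc ▸ ha hy'.1)]; rfl

noncomputable def s (η μ : ℝ) : ℝ := μ * (2 - μ) / 2 * η * sin (100 * (μ - 1) / η)

noncomputable def G (η x μ : ℝ) : ℝ := F x μ + s η μ * (η * sin (x / η))

lemma sb (η μ : ℝ) (hη : 0 < η) (hμ : μ ∈ Ioc (0 : ℝ) 2) : |s η μ| ≤ μ * (2 - μ) / 2 * η := by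
  have h : 0 ≤ μ * (2 - μ) / 2 * η := by
    have := hμ.1; have := sub_nonneg.2 hμ.2; positivity
  rw [s, abs_mul, abs_of_nonneg h]
  exact mul_le_of_le_one_right h (abs_sin_le_one _)

lemma dsin (η x : ℝ) (hη : 0 < η) : HasDerivAt (fun x => η * sin (x / η)) (cos (x / η)) x := by
  refine ((((hasDerivAt_id x).div_const η).sin).const_mul η).congr_deriv ?_
  simp only [id]
  field_simp

lemma dG (η x μ : ℝ) (hη : 0 < η) :
    HasDerivAt (fun x => G η x μ) (-2 * μ * x + s η μ * cos (x / η)) x := by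
  have h := (((hasDerivAt_pow 2 x).const_mul μ).const_sub (μ - 1)).add
    ((dsin η x hη).const_mul (s η μ))
  refine h.congr_deriv ?_
  norm_num
  ring

lemma anti (η μ : ℝ) (hη : 0 < η) (hμ : μ ∈ Ioc (0 : ℝ) 2) :
    StrictAnti fun x => -2 * μ * x + s η μ * cos (x / η) := by
  intro x y hxy
  have h1 := abs_cos_sub_cos_le (y / η) (x / η)
  rw [← sub_div, abs_div, abs_of_pos hη, abs_of_pos (sub_pos.2 hxy)] at h1
  have h2 : |s η μ| ≤ μ * η := (sb η μ hη hμ).trans (by nlinarith [mul_pos hμ.1 hη, hμ.1])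
  have h3 := mul_le_mul h2 h1 (abs_nonneg _) (mul_pos hμ.1 hη).le
  rw [← abs_mul, show μ * η * ((y - x) / η) = μ * (y - x) by field_simp] at h3
  have := le_abs_self (s η μ * (cos (y / η) - cos (x / η)))
  have := mul_pos hμ.1 (sub_pos.2 hxy)
  dsimp only
  linarith

theorem result (ε : ℝ) (hε : 0 < ε) : ∃ (g : ℝ → ℝ → ℝ) (c : ℝ → ℝ),
    ContDiff ℝ 1 (fun p : ℝ × ℝ => g p.1 p.2) ∧
    (∀ μ ∈ Ioc (0 : ℝ) 2, Unimodal (fun x => g x μ) (c μ)) ∧
    (∃ δ < ε, ∀ x ∈ Icc (-1 : ℝ) 1, ∀ μ ∈ Ioc (0 : ℝ) 2, |g x μ - F x μ| +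
      |deriv (fun y => g y μ - F y μ) x| + |deriv (fun t => g x t - F x t) μ| ≤ δ) ∧
    ¬ (MonotoneOn (fun μ => toLex (knead (fun x => g x μ) (c μ))) (Ioc 0 2) ∨
      AntitoneOn (fun μ => toLex (knead (fun x => g x μ) (c μ))) (Ioc 0 2)) := by
  obtain ⟨m, hm⟩ := exists_nat_gt (max 100 (200 / ε))
  have hm1 : (100 : ℝ) < m := (le_max_left _ _).trans_lt hm
  have hm2 : 200 < m * ε := (div_lt_iff₀ hε).1 ((le_max_right _ _).trans_lt hm)
  have hp := pi_gt_three
  have hp' := pi_lt_four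
  obtain ⟨η, hη, e⟩ : ∃ η : ℝ, 0 < η ∧ η * (m * π) = 1 := ⟨1 / (m * π), by positivity, by
    field_simp⟩
  have e1 : 1 / η = m * π := by field_simp; linarith
  have hm3 : η * m < 1 := by nlinarith [mul_pos hη (show (0 : ℝ) < m by linarith)]
  have hη1 : η < 1 / 100 := by nlinarith
  have hη2 : 200 * η < ε := by nlinarith
  have hu : ∀ μ ∈ Ioc (0 : ℝ) 2, ∃ c, -2 * μ * c + s η μ * cos (c / η) = 0 ∧
      Unimodal (fun x => G η x μ) c := fun μ hμ => by
    have h1 := sb η μ hη hμ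
    have h2 : ∀ x, |s η μ * cos x| ≤ μ := fun x => by
      rw [abs_mul]
      have := mul_le_of_le_one_right (abs_nonneg (s η μ)) (abs_cos_le_one x)
      nlinarith [mul_pos hμ.1 hη, hμ.1, mul_pos (mul_pos hμ.1 hη) hμ.1]
    refine uni _ _ (fun x => dG η x μ hη) (anti η μ hη hμ) (by fun_prop) ?_ ?_ (fun x => ?_) ?_ ?_
    · simp only [G, F, neg_div, e1, sin_neg, sin_nat_mul_pi]; ring
    · simp only [G, F, e1, sin_nat_mul_pi]; ring
    · have h3 : |η * sin (x / η)| ≤ 1 := by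
        rw [abs_mul, abs_of_pos hη]
        nlinarith [abs_sin_le_one (x / η), abs_nonneg (sin (x / η))]
      have h4 := mul_le_of_le_one_right (abs_nonneg (s η μ)) h3
      rw [← abs_mul] at h4
      have := le_abs_self (s η μ * (η * sin (x / η)))
      have h5 : μ * η ≤ 2 := by nlinarith [hμ.1, hμ.2]
      simp only [G, F]
      nlinarith [mul_nonneg hμ.1.le (sq_nonneg x), mul_le_mul_of_nonneg_left h5 (sub_nonneg.2 hμ.2)]
    · linarith [(abs_le.1 (h2 (-1 / η))).1, hμ.1]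
    · linarith [(abs_le.1 (h2 (1 / η))).2, hμ.1]
  choose! c hc hcu using hu
  have fi := fun μ hμ => first _ _ (fun x => dG η x μ hη) (anti η μ hη hμ) _ (hc μ hμ) (hcu μ hμ)
  refine ⟨G η, c, by unfold G F s; fun_prop, hcu, ⟨103 * η, by linarith, fun x _ μ hμ => ?_⟩, ?_⟩
  · simp only [G, add_sub_cancel_left]
    have h1 : |s η μ| ≤ η := (sb η μ hη hμ).trans (by nlinarith [sq_nonneg (μ - 1)])
    have h3 : |η * sin (x / η)| ≤ η := by
      rw [abs_mul, abs_of_pos hη]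
      exact mul_le_of_le_one_right hη.le (abs_sin_le_one _)
    have h4 : HasDerivAt (s η) ((1 - μ) * η * sin (100 * (μ - 1) / η) +
        μ * (2 - μ) / 2 * 100 * cos (100 * (μ - 1) / η)) μ := by
      have h := ((((hasDerivAt_id μ).mul ((hasDerivAt_id μ).const_sub 2)).div_const 2).mul_const
        η).mul (((((hasDerivAt_id μ).sub_const 1).const_mul 100).div_const η).sin)
      refine h.congr_deriv ?_
      simp only [id, Pi.mul_apply]
      field_simp
      ring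
    rw [((dsin η x hη).const_mul (s η μ)).deriv, (h4.mul_const _).deriv, abs_mul (s η μ),
      abs_mul (s η μ), abs_mul _ (η * _)]
    have h5 : |(1 - μ) * η * sin (100 * (μ - 1) / η) +
        μ * (2 - μ) / 2 * 100 * cos (100 * (μ - 1) / η)| ≤ 101 := by
      have a1 : |(1 - μ) * η| ≤ 1 := abs_le.2 ⟨by nlinarith [hμ.1, hμ.2], by nlinarith [hμ.1, hμ.2]⟩
      have a2 : |μ * (2 - μ) / 2 * 100| ≤ 100 :=
        abs_le.2 ⟨by nlinarith [hμ.1, hμ.2], by nlinarith [sq_nonneg (μ - 1)]⟩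
      refine (abs_add_le _ _).trans ?_
      rw [abs_mul _ (sin _), abs_mul _ (cos _)]
      linarith [mul_le_of_le_one_right (abs_nonneg ((1 - μ) * η))
        (abs_sin_le_one (100 * (μ - 1) / η)), mul_le_of_le_one_right
        (abs_nonneg (μ * (2 - μ) / 2 * 100)) (abs_cos_le_one (100 * (μ - 1) / η))]
    have b1 := mul_le_mul h1 (h3.trans (show η ≤ 1 by linarith)) (abs_nonneg _) hη.le
    have b2 := mul_le_mul h1 (abs_cos_le_one (x / η)) (abs_nonneg _) hη.le
    have b3 := mul_le_mul h5 h3 (abs_nonneg _) (by norm_num)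
    linarith
  · have hπ := mul_pos pi_pos hη
    have hπ' : π * η < 4 * η := by nlinarith
    have i0 : (1 : ℝ) ∈ Ioc (0 : ℝ) 2 := by norm_num
    have i1 : 1 + π * η / 100 ∈ Ioc (0 : ℝ) 2 := ⟨by linarith, by linarith⟩
    have i2 : 1 + π * η / 40 ∈ Ioc (0 : ℝ) 2 := ⟨by linarith, by linarith⟩
    have z : ∀ μ ∈ Ioc (0 : ℝ) 2, s η μ = 0 → c μ = 0 ∧ G η (c μ) μ = μ - 1 := fun μ hμ h => by
      have h1 := hc μ hμ
      rw [h, zero_mul, add_zero] at h1
      have h2 : c μ = 0 := (mul_eq_zero.1 h1).resolve_left (by linarith [hμ.1])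
      simp [G, F, h, h2]
    have k0 := (fi _ i0).1 (by
      obtain ⟨a, b⟩ := z _ i0 (by simp [s])
      linarith)
    have k1 := (fi _ i1).2 (by
      obtain ⟨a, b⟩ := z _ i1 (by
        rw [s, show 100 * (1 + π * η / 100 - 1) / η = π by field_simp; ring, sin_pi, mul_zero])
      linarith)
    have k2 := (fi _ i2).1 (by
      have h1 : s η (1 + π * η / 40) = (1 - (π * η / 40) ^ 2) / 2 * η := by
        rw [s, show 100 * (1 + π * η / 40 - 1) / η = π / 2 + 2 * π by field_simp; ring,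
          sin_add_two_pi, sin_pi_div_two]
        ring
      have h2 : η / 5 < c (1 + π * η / 40) := by
        refine (anti η _ hη i2).lt_iff_gt.1 ?_
        have h3 := one_sub_sq_div_two_le_cos (x := 1 / 5)
        rw [hc _ i2, h1, show η / 5 / η = 1 / 5 by field_simp]
        have h4 : (π * η / 40) ^ 2 ≤ 1 / 100 := by nlinarith
        have h5 : 0.49 * η ≤ (1 - (π * η / 40) ^ 2) / 2 * η := by nlinarith
        have h6 := mul_le_mul h5 h3 (by norm_num) (by linarith)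
        nlinarith
      have h3 : |η * sin (c (1 + π * η / 40) / η)| ≤ η := by
        rw [abs_mul, abs_of_pos hη]
        exact mul_le_of_le_one_right hη.le (abs_sin_le_one _)
      have h4 : |s η (1 + π * η / 40)| ≤ η :=
        (sb η _ hη i2).trans (by nlinarith [sq_nonneg (π * η / 40)])
      have h5 := mul_le_mul h4 h3 (abs_nonneg _) hη.le
      rw [← abs_mul] at h5
      have := le_abs_self (s η (1 + π * η / 40) * (η * sin (c (1 + π * η / 40) / η)))
      simp only [G, F]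
      nlinarith [mul_nonneg i2.1.le (sq_nonneg (c (1 + π * η / 40)))])
    have lt : ∀ a b : ℕ → ℤ, a 0 = -1 → b 0 = 1 → toLex a < toLex b := fun a b ha hb =>
      ⟨0, fun j hj => absurd hj (Nat.not_lt_zero j), by
        show a 0 < b 0
        omega⟩
    rintro (h | h)
    · exact (lt _ _ k1 k0).not_ge (h i0 i1 (by linarith))
    · exact (lt _ _ k1 k2).not_ge (h i1 i2 (by linarith))

end Pool.Agent.Results.MP_ace4dd_an.Counter
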